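import Pool.Agent.H73.NP.T

/-!
# Board `np_modules`, row POS: words with at most `m` further symbols, with tree-width `k`
-/

set_option autoImplicit false

namespace Pool.Agent.H49.NP

open Pool.Agent.H76.SW Pool.Agent.H73.NP

/-! ### Tree-width of small graphs -/

theorem tw_small {n k : ℕ} (G : SimpleGraph (Fin n)) (h : n ≤ k + 1) : TreeWidthLE G k := by
  have hpre : ∀ {W : Type} (H : SimpleGraph W), Subsingleton W → Nonempty W → H.Connected := by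
    intro W H h1 h2
    refine ⟨fun x y => ?_⟩
    rw [Subsingleton.elim x y]
  refine ⟨Unit, inferInstance, ⊥, fun _ => Set.univ, ⟨?_, ?_⟩, ?_, ?_, ?_, ?_⟩
  · exact hpre _ inferInstance inferInstance
  · exact SimpleGraph.isAcyclic_bot
  · intro v
    exact ⟨(), Set.mem_univ v⟩
  · intro u v _
    exact ⟨(), Set.mem_univ u, Set.mem_univ v⟩
  · intro v
    exact hpre _ inferInstance ⟨⟨(), Set.mem_univ v⟩⟩
  · intro x
    refine ⟨Set.toFinite _, ?_⟩
    rw [Set.ncard_univ, Nat.card_eq_fintype_card, Fintype.card_fin]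
    exact h

/-! ### Runs -/

/-- A run of an automaton. -/
def Run {Λ : Type} {q : ℕ} (M : NFA Λ (Fin q)) : Fin q → List Λ → Fin q → Prop
  | s, [], t => s = t
  | s, l :: w, t => ∃ s', s' ∈ M.step s l ∧ Run M s' w t

theorem mem_evalFrom {Λ : Type} {q : ℕ} (M : NFA Λ (Fin q)) (w : List Λ) :
    ∀ (S : Set (Fin q)) (t : Fin q), t ∈ M.evalFrom S w ↔ ∃ s ∈ S, Run M s w t := by
  induction w with
  | nil =>
    intro S t
    rw [NFA.evalFrom_nil]
    constructor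
    · intro h
      exact ⟨t, h, rfl⟩
    · rintro ⟨s, hs, h⟩
      have h' : s = t := h
      rwa [← h']
  | cons l w ih =>
    intro S t
    have e : M.evalFrom S (l :: w) = M.evalFrom (M.stepSet S l) w := rfl
    rw [e, ih]
    constructor
    · rintro ⟨s', hs', hr⟩
      obtain ⟨s, hs, h⟩ := (NFA.mem_stepSet).1 hs'
      exact ⟨s, hs, s', h, hr⟩
    · rintro ⟨s, hs, s', h, hr⟩
      exact ⟨s', (NFA.mem_stepSet).2 ⟨s, hs, h⟩, hr⟩

theorem mem_accepts {Λ : Type} {q : ℕ} (M : NFA Λ (Fin q)) (w : List Λ) :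
    w ∈ M.accepts ↔ ∃ f ∈ M.accept, ∃ s ∈ M.start, Run M s w f := by
  rw [NFA.mem_accepts]
  constructor
  · rintro ⟨f, hf, h⟩
    exact ⟨f, hf, (mem_evalFrom M w _ _).1 h⟩
  · rintro ⟨f, hf, h⟩
    exact ⟨f, hf, (mem_evalFrom M w _ _).2 h⟩

theorem mem_one {Λ : Type} (l : Λ) (w : List Λ) : w ∈ (one l).accepts ↔ w = [l] := by
  rw [mem_accepts]
  constructor
  · rintro ⟨f, hf, s, hs, hr⟩
    have hf' : f = 1 := hf
    have hs' : s = 0 := hs
    subst hf' hs'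
    rcases w with _ | ⟨x, w⟩
    · exact absurd (show (0 : Fin 2) = 1 from hr) (by decide)
    · obtain ⟨s', ⟨-, h2, h3⟩, hr'⟩ := hr
      subst h2 h3
      rcases w with _ | ⟨y, w⟩
      · rfl
      · obtain ⟨s'', ⟨h4, -, -⟩, -⟩ := hr'
        exact absurd h4 (by decide)
  · rintro rfl
    exact ⟨1, rfl, 0, rfl, 1, ⟨rfl, rfl, rfl⟩, rfl⟩

/-! ### Paths -/

theorem path_nil {Λ V : Type} {F : V → Λ → V → Prop} {u v : V} :
    Path F u [] v ↔ u = v := by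
  constructor
  · intro h
    cases h
    rfl
  · rintro rfl
    exact Path.nil u

theorem path_cons {Λ V : Type} {F : V → Λ → V → Prop} {u v : V} {l : Λ × Bool}
    {w : List (Λ × Bool)} : Path F u (l :: w) v ↔ ∃ t, Step F u l t ∧ Path F t w v := by
  constructor
  · intro h
    cases h with
    | cons _ t _ _ _ h1 h2 => exact ⟨t, h1, h2⟩
  · rintro ⟨t, h1, h2⟩
    exact Path.cons u t v l w h1 h2

theorem holds_one {A V : Type} {c : ℕ} (E : V → A → V → Prop) (R : Fin c → V → V → Prop)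
    (j : Fin c) (u v : V) :
    (∃ w ∈ (one ((Sum.inr j : A ⊕ Fin c), true)).accepts, Path (ext E R) u w v) ↔ R j u v := by
  constructor
  · rintro ⟨w, hw, hp⟩
    rw [mem_one] at hw
    subst hw
    obtain ⟨t, h1, h2⟩ := path_cons.1 hp
    rw [path_nil] at h2
    subst h2
    exact h1
  · intro h
    exact ⟨_, (mem_one _ _).2 rfl, path_cons.2 ⟨v, h, path_nil.2 rfl⟩⟩

section

variable {A : Type} {k q : ℕ}

theorem bt_ne_lt (a : A) : (bt : Lt A k) ≠ lt a := by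
  intro h
  have := congrArg Prod.fst h
  simp [bt, lt] at this

theorem nb_nil : nb ([] : List (Lt A k)) = 0 := rfl

theorem nb_bt (w : List (Lt A k)) : nb (bt :: w) = nb w + 1 := by
  unfold nb
  rw [List.countP_cons_of_pos]
  rfl

theorem nb_lt (a : A) (w : List (Lt A k)) : nb (lt a :: w) = nb w := by
  unfold nb
  rw [List.countP_cons_of_neg]
  simp [lt]

/-- A path labelled with letters does not depend on the further relations. -/
theorem path_letters {V : Type} (E : V → Alp A k → V → Prop) (R R' : Fin 1 → V → V → Prop)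
    (w : List (Lt A k)) (hw : ∀ l ∈ w, ∃ a, l = lt a) :
    ∀ u v, Path (ext E R) u w v → Path (ext E R') u w v := by
  induction w with
  | nil =>
    intro u v h
    exact path_nil.2 (path_nil.1 h)
  | cons l w ih =>
    intro u v h
    obtain ⟨t, h1, h2⟩ := path_cons.1 h
    refine path_cons.2 ⟨t, ?_, ih (fun l hl => hw l (List.mem_cons_of_mem _ hl)) t v h2⟩
    obtain ⟨a, rfl⟩ := hw l List.mem_cons_self
    exact h1

/-- The automaton for the words of letters which lead from `s` to `T`. -/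
def LA (M : NFA (Lt A k) (Fin q)) (s : Fin q) (T : Set (Fin q)) : NFA (Lt A k) (Fin q) where
  step s' l := {t | t ∈ M.step s' l ∧ ∃ a, l = lt a}
  start := {s}
  accept := T

theorem run_LA (M : NFA (Lt A k) (Fin q)) (s : Fin q) (T : Set (Fin q)) (w : List (Lt A k)) :
    ∀ s' t, Run (LA M s T) s' w t ↔ (∀ l ∈ w, ∃ a, l = lt a) ∧ Run M s' w t := by
  induction w with
  | nil =>
    intro s' t
    constructor
    · intro h
      exact ⟨by simp, h⟩
    · rintro ⟨-, h⟩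
      exact h
  | cons l w ih =>
    intro s' t
    constructor
    · rintro ⟨s'', ⟨h1, h2⟩, h3⟩
      obtain ⟨h4, h5⟩ := (ih s'' t).1 h3
      refine ⟨?_, s'', h1, h5⟩
      intro l' hl'
      rcases List.mem_cons.1 hl' with rfl | hl'
      · exact h2
      · exact h4 l' hl'
    · rintro ⟨h1, s'', h2, h3⟩
      exact ⟨s'', ⟨h2, h1 l List.mem_cons_self⟩,
        (ih s'' t).2 ⟨fun l hl => h1 l (List.mem_cons_of_mem _ hl), h3⟩⟩

theorem mem_LA (M : NFA (Lt A k) (Fin q)) (s : Fin q) (T : Set (Fin q)) (w : List (Lt A k)) :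
    w ∈ (LA M s T).accepts ↔ (∀ l ∈ w, ∃ a, l = lt a) ∧ ∃ t ∈ T, Run M s w t := by
  rw [mem_accepts]
  constructor
  · rintro ⟨f, hf, s', hs', hr⟩
    have e : s' = s := hs'
    subst e
    obtain ⟨h1, h2⟩ := (run_LA M _ T w _ _).1 hr
    exact ⟨h1, f, hf, h2⟩
  · rintro ⟨h1, f, hf, h2⟩
    exact ⟨f, hf, s, rfl, (run_LA M _ T w _ _).2 ⟨h1, h2⟩⟩

/-- An accepted word read from the state `s`, with exactly `j` further symbols, labels a path
which starts at `x`. -/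
def PB (M : NFA (Lt A k) (Fin q)) (s : Fin q) (j : ℕ) {V : Type} (E : V → Alp A k → V → Prop)
    (x : V) : Prop :=
  ∃ (w : List (Lt A k)) (y : V), (∀ l ∈ w, Ok l) ∧ (∃ f ∈ M.accept, Run M s w f) ∧ nb w = j ∧
    PathB E x w y

/-- The binary query: a word of letters which leads from `s` to `T`, with the outputs `0`, `o`. -/
def LQ (M : NFA (Lt A k) (Fin q)) (s : Fin q) (T : Set (Fin q)) (o : Fin 2) : RQ (Alp A k) :=
  .cq 1 ⟨2, 1, fun _ => 0, fun _ => 1, fun _ => q, fun _ => LA M s T⟩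
    (fun _ => RQ.union 0 Fin.elim0) (0 : Fin 2) o

theorem LQ_width (hk : 1 ≤ k) (M : NFA (Lt A k) (Fin q)) (s : Fin q) (T : Set (Fin q))
    (o : Fin 2) : (LQ M s T o).Width k := by
  refine ⟨tw_small _ (show 2 ≤ k + 1 by omega), fun j => ?_⟩
  intro i
  exact i.elim0

theorem LQ_sat (M : NFA (Lt A k) (Fin q)) (s : Fin q) (T : Set (Fin q)) (o : Fin 2) {V : Type}
    (E : V → Alp A k → V → Prop) (u v : V) :
    (LQ M s T o).Sat E u v ↔ ∃ μ : Fin 2 → V, (∃ w : List (Lt A k), (∀ l ∈ w, ∃ a, l = lt a) ∧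
      (∃ t ∈ T, Run M s w t) ∧ PathB E (μ 0) w (μ 1)) ∧ μ 0 = u ∧ μ o = v := by
  constructor
  · rintro ⟨μ, h, h1, h2⟩
    obtain ⟨w, hw, hp⟩ := h 0
    obtain ⟨h3, h4⟩ := (mem_LA M s T w).1 hw
    exact ⟨μ, ⟨w, h3, h4, path_letters E _ _ w h3 _ _ hp⟩, h1, h2⟩
  · rintro ⟨μ, ⟨w, h3, h4, hp⟩, h1, h2⟩
    refine ⟨μ, fun i => ⟨w, (mem_LA M s T w).2 ⟨h3, h4⟩, ?_⟩, h1, h2⟩
    exact path_letters E _ _ w h3 _ _ hp

/-- Splitting off the letters before the first further symbol. -/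
theorem split_first (M : NFA (Lt A k) (Fin q)) {V : Type} (E : V → Alp A k → V → Prop)
    (w : List (Lt A k)) : ∀ (s f : Fin q) (x y : V) (j : ℕ), (∀ l ∈ w, Ok l) → Run M s w f →
    PathB E x w y → nb w = j + 1 →
    ∃ (w₁ w₂ : List (Lt A k)) (t t₁ : Fin q) (y₀ y₁ : V), (∀ l ∈ w₁, ∃ a, l = lt a) ∧
      Run M s w₁ t ∧ PathB E x w₁ y₀ ∧ t₁ ∈ M.step t bt ∧ (beta A k).Sat E y₀ y₁ ∧
      (∀ l ∈ w₂, Ok l) ∧ Run M t₁ w₂ f ∧ PathB E y₁ w₂ y ∧ nb w₂ = j := by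
  induction w with
  | nil =>
    intro s f x y j _ _ _ h
    rw [nb_nil] at h
    omega
  | cons l w ih =>
    intro s f x y j hok hr hp hn
    obtain ⟨s', hs', hr'⟩ := hr
    obtain ⟨x', h1, h2⟩ := path_cons.1 hp
    have hok' : ∀ l ∈ w, Ok l := fun l hl => hok l (List.mem_cons_of_mem _ hl)
    rcases hok l List.mem_cons_self with rfl | ⟨a, rfl⟩
    · rw [nb_bt] at hn
      exact ⟨[], w, s, s', x, x', by simp, rfl, path_nil.2 rfl, hs', h1, hok', hr', h2,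
        by omega⟩
    · rw [nb_lt] at hn
      obtain ⟨w₁, w₂, t, t₁, y₀, y₁, k1, k2, k3, k4⟩ := ih s' f x' y j hok' hr' h2 hn
      refine ⟨lt a :: w₁, w₂, t, t₁, y₀, y₁, ?_, ⟨s', hs', k2⟩, path_cons.2 ⟨x', h1, k3⟩, k4⟩
      intro l hl
      rcases List.mem_cons.1 hl with rfl | hl
      · exact ⟨a, rfl⟩
      · exact k1 l hl

theorem join_first (M : NFA (Lt A k) (Fin q)) {V : Type} (E : V → Alp A k → V → Prop)
    (w₂ : List (Lt A k)) (t t₁ f : Fin q) (y₀ y₁ y : V) (j : ℕ)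
    (h4 : t₁ ∈ M.step t bt) (h5 : (beta A k).Sat E y₀ y₁) (h6 : ∀ l ∈ w₂, Ok l)
    (h7 : Run M t₁ w₂ f) (h8 : PathB E y₁ w₂ y) (h9 : nb w₂ = j) (w₁ : List (Lt A k)) :
    ∀ (s : Fin q) (x : V), (∀ l ∈ w₁, ∃ a, l = lt a) → Run M s w₁ t → PathB E x w₁ y₀ →
    (∀ l ∈ w₁ ++ bt :: w₂, Ok l) ∧ Run M s (w₁ ++ bt :: w₂) f ∧
      PathB E x (w₁ ++ bt :: w₂) y ∧ nb (w₁ ++ bt :: w₂) = j + 1 := by
  induction w₁ with
  | nil =>
    intro s x _ hr hp
    have e1 : s = t := hr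
    have e2 : x = y₀ := path_nil.1 hp
    subst e1 e2
    rw [List.nil_append]
    refine ⟨?_, ⟨t₁, h4, h7⟩, path_cons.2 ⟨y₁, h5, h8⟩, ?_⟩
    · intro l hl
      rcases List.mem_cons.1 hl with rfl | hl
      · exact Or.inl rfl
      · exact h6 l hl
    · rw [nb_bt, h9]
  | cons l w ih =>
    intro s x hl hr hp
    obtain ⟨s', hs', hr'⟩ := hr
    obtain ⟨x', h1, h2⟩ := path_cons.1 hp
    obtain ⟨k1, k2, k3, k4⟩ := ih s' x' (fun l h => hl l (List.mem_cons_of_mem _ h)) hr' h2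
    obtain ⟨a, rfl⟩ := hl l List.mem_cons_self
    rw [List.cons_append]
    refine ⟨?_, ⟨s', hs', k2⟩, path_cons.2 ⟨x', h1, k3⟩, ?_⟩
    · intro l hl
      rcases List.mem_cons.1 hl with rfl | hl
      · exact Or.inr ⟨a, rfl⟩
      · exact k1 l hl
    · rw [nb_lt, k4]

/-- One step: letters from `s` to `t`, then a loop. -/
def SQ (M : NFA (Lt A k) (Fin q)) (s t : Fin q) (G : RQ (Alp A k)) : RQ (Alp A k) :=
  .cq 2 ⟨2, 2, fun i => i, fun _ => 1, fun _ => 2, fun i => one (Sum.inr i, true)⟩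
    (fun i => if i = 0 then LQ M s {t} 1 else G) (0 : Fin 2) (0 : Fin 2)

theorem SQ_width (hk : 1 ≤ k) (M : NFA (Lt A k) (Fin q)) (s t : Fin q) (G : RQ (Alp A k))
    (hG : G.Width k) : (SQ M s t G).Width k := by
  refine ⟨tw_small _ (show 2 ≤ k + 1 by omega), fun j => ?_⟩
  show (if j = 0 then LQ M s {t} 1 else G).Width k
  split_ifs
  · exact LQ_width hk M s {t} 1
  · exact hG

theorem SQ_sat (M : NFA (Lt A k) (Fin q)) (s t : Fin q) (G : RQ (Alp A k)) {V : Type}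
    (E : V → Alp A k → V → Prop) (u v : V) :
    (SQ M s t G).Sat E u v ↔ u = v ∧ ∃ y₀, (∃ w : List (Lt A k), (∀ l ∈ w, ∃ a, l = lt a) ∧
      Run M s w t ∧ PathB E u w y₀) ∧ G.Sat E y₀ y₀ := by
  constructor
  · rintro ⟨μ, h, h1, h2⟩
    have a0 := (holds_one E _ (0 : Fin 2) _ _).1 (h 0)
    have a1 := (holds_one E _ (1 : Fin 2) _ _).1 (h 1)
    have b0 : (LQ M s {t} 1).Sat E (μ 0) (μ 1) := a0
    have b1 : G.Sat E (μ 1) (μ 1) := a1
    obtain ⟨ν, ⟨w, hw, ⟨t', ht', hr⟩, hp⟩, c1, c2⟩ := (LQ_sat M s {t} 1 E _ _).1 b0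
    have e : t' = t := ht'
    subst e
    subst h1
    refine ⟨h2, μ 1, ⟨w, hw, hr, ?_⟩, b1⟩
    rw [← c1, ← c2]
    exact hp
  · rintro ⟨rfl, y₀, ⟨w, hw, hr, hp⟩, hG⟩
    have b0 : (LQ M s {t} 1).Sat E u y₀ :=
      (LQ_sat M s {t} 1 E _ _).2 ⟨fun i => if i = 0 then u else y₀,
        ⟨w, hw, ⟨t, rfl, hr⟩, hp⟩, rfl, rfl⟩
    refine ⟨fun i => if i = (0 : Fin 2) then u else y₀, ?_, rfl, rfl⟩
    intro i
    have hcase : i = (0 : Fin 2) ∨ i = (1 : Fin 2) := by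
      revert i
      show ∀ i : Fin 2, i = 0 ∨ i = 1
      decide
    rcases hcase with rfl | rfl
    · exact (holds_one E _ (0 : Fin 2) _ _).2 b0
    · exact (holds_one E _ (1 : Fin 2) _ _).2 hG

theorem exists_P (h : N_PSG) (hk : 1 ≤ k) (M : NFA (Lt A k) (Fin q)) (j : ℕ) :
    ∀ s : Fin q, ∃ P : RQ (Alp A k), P.Width k ∧
      ∀ (V : Type) (E : V → Alp A k → V → Prop) (x x' : V),
        P.Sat E x x' ↔ x = x' ∧ PB M s j E x := by
  classical
  induction j with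
  | zero =>
    intro s
    refine ⟨LQ M s M.accept 0, LQ_width hk M s _ 0, ?_⟩
    intro V E x x'
    rw [LQ_sat]
    constructor
    · rintro ⟨μ, ⟨w, hw, ⟨f, hf, hr⟩, hp⟩, h1, h2⟩
      subst h1
      refine ⟨h2, w, μ 1, fun l hl => Or.inr (hw l hl), ⟨f, hf, hr⟩, ?_, hp⟩
      unfold nb
      rw [List.countP_eq_zero]
      intro l hl
      obtain ⟨a, rfl⟩ := hw l hl
      simp [lt]
    · rintro ⟨rfl, w, y, hok, ⟨f, hf, hr⟩, hn, hp⟩
      refine ⟨fun i => if i = 0 then x else y, ⟨w, ?_, ⟨f, hf, hr⟩, hp⟩, rfl, rfl⟩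
      intro l hl
      rcases hok l hl with rfl | ha
      · exfalso
        unfold nb at hn
        rw [List.countP_eq_zero] at hn
        exact hn _ hl rfl
      · exact ha
  | succ j ih =>
    choose P hP1 hP2 using ih
    have hG : ∀ t₁ : Fin q, ∃ G : RQ (Alp A k), G.Width k ∧
        ∀ (V : Type) (E : V → Alp A k → V → Prop) (x x' : V),
          G.Sat E x x' ↔ x = x' ∧ ∃ y, (beta A k).Sat E x y ∧ (P t₁).Sat E y y :=
      fun t₁ => h hk (P t₁) (hP1 t₁)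
    choose G hG1 hG2 using hG
    intro s
    let I := {p : Fin q × Fin q // p.2 ∈ M.step p.1 bt}
    let e := Fintype.equivFin I
    refine ⟨RQ.union (Fintype.card I) (fun i => SQ M s (e.symm i).1.1 (G (e.symm i).1.2)), ?_, ?_⟩
    · intro i
      exact SQ_width hk M s _ _ (hG1 _)
    · intro V E x x'
      have e1 : (RQ.union (Fintype.card I)
          (fun i => SQ M s (e.symm i).1.1 (G (e.symm i).1.2))).Sat E x x' ↔
          ∃ p : I, (SQ M s p.1.1 (G p.1.2)).Sat E x x' := by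
        constructor
        · rintro ⟨i, hi⟩
          exact ⟨e.symm i, hi⟩
        · rintro ⟨p, hp⟩
          refine ⟨e p, ?_⟩
          show (SQ M s (e.symm (e p)).1.1 (G (e.symm (e p)).1.2)).Sat E x x'
          rw [e.symm_apply_apply]
          exact hp
      rw [e1]
      constructor
      · rintro ⟨⟨⟨t, t₁⟩, hp⟩, hs⟩
        obtain ⟨h1, y₀, ⟨w₁, hw₁, hr₁, hp₁⟩, hg⟩ := (SQ_sat M s _ _ E x x').1 hs
        obtain ⟨-, y₁, hb, hP⟩ := (hG2 _ V E y₀ y₀).1 hg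
        obtain ⟨-, w₂, y, hok, ⟨f, hf, hr⟩, hn, hpw⟩ := (hP2 _ V E y₁ y₁).1 hP
        obtain ⟨k1, k2, k3, k4⟩ := join_first M E w₂ t t₁ f y₀ y₁ y j hp hb hok hr hpw hn w₁ s x
          hw₁ hr₁ hp₁
        exact ⟨h1, w₁ ++ bt :: w₂, y, k1, ⟨f, hf, k2⟩, k4, k3⟩
      · rintro ⟨rfl, w, y, hok, ⟨f, hf, hr⟩, hn, hp⟩
        obtain ⟨w₁, w₂, t, t₁, y₀, y₁, k1, k2, k3, k4, k5, k6, k7, k8, k9⟩ :=
          split_first M E w s f x y j hok hr hp hn
        refine ⟨⟨(t, t₁), k4⟩, (SQ_sat M s _ _ E x x).2 ⟨rfl, y₀, ⟨w₁, k1, k2, k3⟩, ?_⟩⟩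
        exact (hG2 _ V E y₀ y₀).2 ⟨rfl, y₁, k5,
          (hP2 _ V E y₁ y₁).2 ⟨rfl, w₂, y, k6, ⟨f, hf, k7⟩, k9, k8⟩⟩

end

theorem pf_POS (h : N_PSG) : Pool.Agent.H73.NP.N_POS := by
  classical
  intro A k q hk M hM m
  have hP := fun (p : Fin q × Fin (m + 1)) => exists_P h hk M (p.2 : ℕ) p.1
  choose P hP1 hP2 using hP
  set C : Fin q × Fin (m + 1) → CRQ (Alp A k) 0 := fun p =>
    ⟨1, ⟨1, 1, fun _ => 0, fun _ => 0, fun _ => 2, fun _ => one (Sum.inr 0, true)⟩,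
      fun _ => P p, Fin.elim0⟩ with hC
  have hCS : ∀ (p : Fin q × Fin (m + 1)) (V : Type) (E : V → Alp A k → V → Prop)
      (z : Fin 0 → V), (C p).Sat E z ↔ ∃ x, PB M p.1 (p.2 : ℕ) E x := by
    intro p V E z
    constructor
    · rintro ⟨μ, h1, -⟩
      have h2 := (holds_one E _ (0 : Fin 1) _ _).1 (h1 0)
      exact ⟨_, ((hP2 p V E _ _).1 h2).2⟩
    · rintro ⟨x, hx⟩
      refine ⟨fun _ => x, fun i => ?_, fun i => i.elim0⟩
      exact (holds_one E _ (0 : Fin 1) _ _).2 ((hP2 p V E x x).2 ⟨rfl, hx⟩)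
  refine ⟨((Finset.univ.filter (fun p : Fin q × Fin (m + 1) => p.1 ∈ M.start)).toList).map C,
    ?_, ?_⟩
  · intro t ht
    obtain ⟨p, -, rfl⟩ := List.mem_map.1 ht
    exact ⟨tw_small _ (show 1 ≤ k + 1 by omega), fun j => hP1 p⟩
  · intro V E z
    constructor
    · rintro ⟨t, ht, hs⟩
      obtain ⟨p, hp, rfl⟩ := List.mem_map.1 ht
      have hp' : p.1 ∈ M.start := (Finset.mem_filter.1 (Finset.mem_toList.1 hp)).2
      obtain ⟨x, w, y, hok, ⟨f, hf, hr⟩, hn, hpw⟩ := (hCS p V E z).1 hs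
      refine ⟨w, (mem_accepts M w).2 ⟨f, hf, p.1, hp', hr⟩, ?_, x, y, hpw⟩
      have := p.2.2
      omega
    · rintro ⟨w, hw, hn, u, v, hp⟩
      obtain ⟨f, hf, s, hs, hr⟩ := (mem_accepts M w).1 hw
      refine ⟨C (s, ⟨nb w, by omega⟩), List.mem_map.2 ⟨(s, ⟨nb w, by omega⟩), ?_, rfl⟩, ?_⟩
      · exact Finset.mem_toList.2 (Finset.mem_filter.2 ⟨Finset.mem_univ _, hs⟩)
      · exact (hCS _ V E z).2 ⟨u, w, v, hM w hw, ⟨f, hf, hr⟩, rfl, hp⟩

end Pool.Agent.H49.NP
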