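import Pool.Agent.H76.NP.Targets

/-!
# Row CVX of the board nvp_modules: the convexity criterion
-/

set_option autoImplicit false

namespace Pool.Agent.H49.NP

open Pool.Agent.H76.NP

theorem pf_CVX : T_CVX := by
  classical
  intro V E ι _ _ _ _ _ _ A p F lam dual hcov hface hone hlt hdual hrep hadj x
  obtain ⟨i, hi⟩ := Finite.exists_max (fun i => lam i x)
  have hlam : ∀ j, lam j x = ∑ v ∈ F i, dual i v x * lam j (p v) := by
    intro j
    conv_lhs => rw [hrep i x]
    rw [map_sum]
    refine Finset.sum_congr rfl fun v _ => ?_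
    rw [map_smul, smul_eq_mul]
  -- the coefficients are nonnegative
  have hnn : ∀ v ∈ F i, 0 ≤ dual i v x := by
    intro v hv
    by_contra hneg
    rw [not_le] at hneg
    obtain ⟨j, hj1, hj2⟩ := hadj i v hv
    have h1 : lam j x - lam i x = ∑ u ∈ F i, dual i u x * (lam j (p u) - 1) := by
      rw [hlam j, hlam i, ← Finset.sum_sub_distrib]
      refine Finset.sum_congr rfl fun u hu => ?_
      rw [hone i u hu]
      ring
    have h2 : ∑ u ∈ F i, dual i u x * (lam j (p u) - 1) = dual i v x * (lam j (p v) - 1) := by
      refine Finset.sum_eq_single_of_mem v hv fun u hu huv => ?_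
      rw [hone j u (hj1 (Finset.mem_erase.2 ⟨huv, hu⟩))]
      ring
    have h3 : lam j (p v) < 1 := hlt j v (hface i v hv v hv) hj2
    have h4 : 0 < dual i v x * (lam j (p v) - 1) :=
      mul_pos_of_neg_of_neg hneg (by linarith)
    have h5 := hi j
    rw [← h2, ← h1] at h4
    linarith
  refine ⟨fun v => if v ∈ F i then dual i v x else 0, ⟨?_, ?_, ?_⟩, ?_⟩
  · intro v
    show 0 ≤ (if v ∈ F i then dual i v x else 0)
    split_ifs with h
    · exact hnn v h
    · exact le_rfl
  · intro u v hu hv
    have hu' : u ∈ F i := by
      by_contra h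
      exact hu (if_neg h)
    have hv' : v ∈ F i := by
      by_contra h
      exact hv (if_neg h)
    exact hface i u hu' v hv'
  · show ∑ v, (if v ∈ F i then dual i v x else 0) • p v = x
    conv_rhs => rw [hrep i x]
    rw [← Finset.sum_filter_add_sum_filter_not Finset.univ (fun v => v ∈ F i)]
    have e1 : ∑ v ∈ Finset.univ.filter (fun v => v ∈ F i),
        (if v ∈ F i then dual i v x else 0) • p v = ∑ v ∈ F i, dual i v x • p v := by
      rw [Finset.filter_univ_mem]
      refine Finset.sum_congr rfl fun v hv => ?_
      rw [if_pos hv]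
    have e2 : ∑ v ∈ Finset.univ.filter (fun v => ¬ v ∈ F i),
        (if v ∈ F i then dual i v x else 0) • p v = 0 := by
      refine Finset.sum_eq_zero fun v hv => ?_
      rw [if_neg (Finset.mem_filter.1 hv).2, zero_smul]
    rw [e1, e2, add_zero]
  · rintro c ⟨hc0, hcl, hcx⟩
    -- general facts on a representation
    have hA : ∀ v, c v ≠ 0 → A v v = true := fun v hv => hcl v v hv hv
    have hlx : ∀ j, lam j x = ∑ v, c v * lam j (p v) := by
      intro j
      rw [← hcx, map_sum]
      refine Finset.sum_congr rfl fun v _ => ?_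
      rw [map_smul, smul_eq_mul]
    have hterm : ∀ j v, 0 ≤ c v * (1 - lam j (p v)) := by
      intro j v
      by_cases hv : c v = 0
      · rw [hv, zero_mul]
      · refine mul_nonneg (hc0 v) ?_
        by_cases hF : v ∈ F j
        · rw [hone j v hF]
          norm_num
        · have := hlt j v (hA v hv) hF
          linarith
    have hsum : ∀ j, ∑ v, c v * (1 - lam j (p v)) = ∑ v, c v - lam j x := by
      intro j
      rw [hlx j, ← Finset.sum_sub_distrib]
      exact Finset.sum_congr rfl fun v _ => by ring
    obtain ⟨i₀, hi₀⟩ := hcov (Finset.univ.filter fun v => c v ≠ 0) (by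
      intro u hu v hv
      exact hcl u v (Finset.mem_filter.1 hu).2 (Finset.mem_filter.1 hv).2)
    have h1 : lam i₀ x = ∑ v, c v := by
      rw [hlx i₀]
      refine Finset.sum_congr rfl fun v _ => ?_
      by_cases hv : c v = 0
      · rw [hv, zero_mul]
      · rw [hone i₀ v (hi₀ (Finset.mem_filter.2 ⟨Finset.mem_univ v, hv⟩)), mul_one]
    have h2 : lam i₀ x ≤ lam i x := hi i₀
    have h3 : ∑ v, c v * (1 - lam i (p v)) = 0 := by
      refine le_antisymm ?_ (Finset.sum_nonneg fun v _ => hterm i v)
      rw [hsum i]
      linarith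
    have h4 : ∀ v, c v ≠ 0 → v ∈ F i := by
      intro v hv
      by_contra hF
      have h5 := (Finset.sum_eq_zero_iff_of_nonneg fun v _ => hterm i v).1 h3 v
        (Finset.mem_univ v)
      have h6 := hlt i v (hA v hv) hF
      rcases mul_eq_zero.1 h5 with h7 | h7
      · exact hv h7
      · linarith
    funext u
    show c u = if u ∈ F i then dual i u x else 0
    split_ifs with hu
    · rw [← hcx, map_sum]
      have h5 : ∀ v, dual i u (c v • p v) = if v = u then c u else 0 := by
        intro v
        rw [map_smul, smul_eq_mul]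
        by_cases hv : c v = 0
        · rw [hv, zero_mul]
          split_ifs with h
          · rw [← h, hv]
          · rfl
        · rw [hdual i u hu v (h4 v hv)]
          by_cases h : u = v
          · rw [if_pos h, if_pos h.symm, mul_one, h]
          · rw [if_neg h, if_neg (fun h' => h h'.symm), mul_zero]
      rw [Finset.sum_congr rfl fun v _ => h5 v, Finset.sum_ite_eq' Finset.univ u fun _ => c u,
        if_pos (Finset.mem_univ u)]
    · by_contra h
      exact hu (h4 u h)

end Pool.Agent.H49.NP
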